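import Mathlib

/-!
# Every upper quasi-density on the positive integers extends uniquely to the natural numbers
-/

namespace Pool.Agent.Results.MP_32b555_nt.UniqueExtension

/-- `k · X + h` for a set `X` of integers. -/
def affineImage (k h : ℕ) (X : Set ℤ) : Set ℤ := (fun x : ℤ => (k : ℤ) * x + (h : ℤ)) '' X

/-- `μ` (restricted to the subsets of `H`) is an upper quasi-density on `H ⊆ ℤ`:
(F1), (F3), (F4 flat) and `μ ≤ 1`. -/
structure IsUpperQuasiDensity (H : Set ℤ) (μ : Set ℤ → ℝ) : Prop where
  total : μ H = 1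
  subadd : ∀ X Y : Set ℤ, X ⊆ H → Y ⊆ H → μ (X ∪ Y) ≤ μ X + μ Y
  affine : ∀ X : Set ℤ, X ⊆ H → ∀ h k : ℕ, 0 < h → 0 < k →
    μ (affineImage k h X) = 1 / (k : ℝ) * μ X
  le_one : ∀ X : Set ℤ, X ⊆ H → μ X ≤ 1

/-- The natural numbers `0, 1, 2, …` as a set of integers. -/
def natSet : Set ℤ := {n : ℤ | 0 ≤ n}

/-- The positive integers as a set of integers. -/
def posSet : Set ℤ := {n : ℤ | 0 < n}

theorem affineImage_comp (k h k' h' : ℕ) (X : Set ℤ) :
    affineImage k h (affineImage k' h' X) = affineImage (k * k') (k * h' + h) X := by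
  unfold affineImage
  rw [Set.image_image]
  apply Set.image_congr
  intro x _
  push_cast
  ring

theorem affineImage_subset_pos {X : Set ℤ} (hX : X ⊆ natSet) {k h : ℕ} (hh : 0 < h) :
    affineImage k h X ⊆ posSet := by
  rintro y ⟨x, hx, rfl⟩
  have h0 : (0 : ℤ) ≤ x := hX hx
  have h1 : (0 : ℤ) < h := by exact_mod_cast hh
  show (0 : ℤ) < (k : ℤ) * x + h
  positivity

theorem pos_subset_nat : posSet ⊆ natSet := fun x (hx : (0 : ℤ) < x) => le_of_lt hx

theorem shift_nat : affineImage 1 1 natSet = posSet := by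
  ext y
  constructor
  · intro hy
    exact affineImage_subset_pos (le_refl _) Nat.one_pos hy
  · intro (hy : (0 : ℤ) < y)
    refine ⟨y - 1, ?_, by simp⟩
    show (0 : ℤ) ≤ y - 1
    omega

/-- Every upper quasi-density on the positive integers has exactly one extension to an upper
quasi-density on the natural numbers. -/
theorem result (μ : Set ℤ → ℝ) (hμ : IsUpperQuasiDensity posSet μ) :
    ∃ ν : Set ℤ → ℝ,
      (IsUpperQuasiDensity natSet ν ∧ ∀ X : Set ℤ, X ⊆ posSet → ν X = μ X) ∧
      ∀ ν' : Set ℤ → ℝ,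
        (IsUpperQuasiDensity natSet ν' ∧ ∀ X : Set ℤ, X ⊆ posSet → ν' X = μ X) →
        ∀ X : Set ℤ, X ⊆ natSet → ν' X = ν X := by
  refine ⟨fun X => μ (affineImage 1 1 X), ⟨⟨?_, ?_, ?_, ?_⟩, ?_⟩, ?_⟩
  · show μ (affineImage 1 1 natSet) = 1
    rw [shift_nat]
    exact hμ.total
  · intro X Y hX hY
    show μ (affineImage 1 1 (X ∪ Y)) ≤ μ (affineImage 1 1 X) + μ (affineImage 1 1 Y)
    have : affineImage 1 1 (X ∪ Y) = affineImage 1 1 X ∪ affineImage 1 1 Y := Set.image_union _ _ _
    rw [this]
    exact hμ.subadd _ _ (affineImage_subset_pos hX Nat.one_pos)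
      (affineImage_subset_pos hY Nat.one_pos)
  · intro X hX h k hh hk
    show μ (affineImage 1 1 (affineImage k h X)) = 1 / (k : ℝ) * μ (affineImage 1 1 X)
    have h1 : μ (affineImage 1 k (affineImage 1 1 (affineImage k h X)))
        = μ (affineImage 1 1 (affineImage k h X)) := by
      have := hμ.affine (affineImage 1 1 (affineImage k h X))
        (affineImage_subset_pos ((affineImage_subset_pos hX hh).trans pos_subset_nat) Nat.one_pos)
        k 1 hk Nat.one_pos
      simpa using this
    have h2 : affineImage 1 k (affineImage 1 1 (affineImage k h X))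
        = affineImage k (h + 1) (affineImage 1 1 X) := by
      rw [affineImage_comp, affineImage_comp, affineImage_comp]
      congr 1
      · ring
      · ring
    rw [← h1, h2]
    exact hμ.affine (affineImage 1 1 X) (affineImage_subset_pos hX Nat.one_pos) (h + 1) k
      (Nat.succ_pos h) hk
  · intro X hX
    exact hμ.le_one _ (affineImage_subset_pos hX Nat.one_pos)
  · intro X hX
    have := hμ.affine X hX 1 1 Nat.one_pos Nat.one_pos
    simpa using this
  · rintro ν' ⟨hν', hext⟩ X hX
    have h1 := hν'.affine X hX 1 1 Nat.one_pos Nat.one_pos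
    have h2 := hext (affineImage 1 1 X) (affineImage_subset_pos hX Nat.one_pos)
    show ν' X = μ (affineImage 1 1 X)
    rw [← h2, h1]
    simp

end Pool.Agent.Results.MP_32b555_nt.UniqueExtension
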